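import Mathlib
import Pool.Agent.Helper68.ST.Weight

/-!
# ST-2b (for helper63, MP_82cbb9_al): the scalar case of Malcev's theorem

If all normal subgroups of the solvable group `G` with commutative image are scalar, then `G` is
scalar up to index `(n²)! n²`, `n = dim V`.
-/

set_option autoImplicit false
set_option linter.unusedSectionVars false

namespace Pool.Agent.ST

open Module

namespace M2b

/-- the number of homomorphisms from a finite group to a field is at most the order -/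
theorem card_monoidHom_le (Q k : Type) [Group Q] [Finite Q] [Field k] :
    Finite (Q →* k) ∧ Nat.card (Q →* k) ≤ Nat.card Q := by
  have h := linearIndependent_monoidHom Q k
  have hf : Finite (Q →* k) := h.finite
  refine ⟨hf, ?_⟩
  cases nonempty_fintype Q
  cases nonempty_fintype (Q →* k)
  rw [Nat.card_eq_fintype_card, Nat.card_eq_fintype_card]
  refine h.fintype_card_le_finrank.trans ?_
  rw [Module.finrank_fintype_fun_eq_card]

/-- the derived series of a subgroup -/
def dser {G : Type} [Group G] (C : Subgroup G) : ℕ → Subgroup G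
  | 0 => C
  | n + 1 => ⁅dser C n, dser C n⁆

/-- the last term of the derived series of a normal subgroup `C` not contained in `Z` -/
theorem exists_last {G : Type} [Group G] [Group.IsSolvable G] (C Z : Subgroup G) (hC : C.Normal)
    (hCZ : ¬ C ≤ Z) : ∃ D : Subgroup G, D.Normal ∧ D ≤ C ∧ ¬ D ≤ Z ∧ ⁅D, D⁆ ≤ Z := by
  classical
  let D : ℕ → Subgroup G := dser C
  have hD0 : D 0 = C := rfl
  have hDs : ∀ i, D (i + 1) = ⁅D i, D i⁆ := fun i => rfl
  have hn : ∀ i, (D i).Normal := by
    intro i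
    induction i with
    | zero => exact hC
    | succ i ih =>
      rw [hDs]
      exact @Subgroup.commutator_normal G _ (D i) (D i) ih ih
  have hle : ∀ i, D i ≤ derivedSeries G i := by
    intro i
    induction i with
    | zero => rw [derivedSeries_zero]; exact le_top
    | succ i ih =>
      rw [hDs, derivedSeries_succ]
      exact Subgroup.commutator_mono ih ih
  have hdC : ∀ i, D i ≤ C := by
    intro i
    induction i with
    | zero => exact le_refl _
    | succ i ih =>
      rw [hDs]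
      exact (@Subgroup.commutator_le_left G _ (D i) (D i) (hn i)).trans ih
  obtain ⟨m, hm⟩ := (Group.isSolvable_def G).mp inferInstance
  have hex : ∃ i, D i ≤ Z := ⟨m, by
    have := hle m
    rw [hm] at this
    exact this.trans bot_le⟩
  have hdec : DecidablePred (fun n => D n ≤ Z) := Classical.decPred _
  have h0 : Nat.find hex ≠ 0 := by
    intro h
    have := Nat.find_spec hex
    rw [h, hD0] at this
    exact hCZ this
  obtain ⟨i, hi⟩ := Nat.exists_eq_succ_of_ne_zero h0
  refine ⟨D i, hn i, hdC i, ?_, ?_⟩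
  · exact Nat.find_min hex (by omega)
  · rw [← hDs]
    have := Nat.find_spec hex
    rwa [hi] at this

section

variable {k V G : Type} [Field k] [AddCommGroup V] [Module k V] [Nontrivial V] [Group G]

theorem rho_ne_zero (ρ : G →* Module.End k V) (g : G) : ρ g ≠ 0 := by
  intro h
  have h1 : ρ g * ρ g⁻¹ = 1 := by rw [← map_mul, mul_inv_cancel, map_one]
  rw [h, zero_mul] at h1
  exact zero_ne_one h1

theorem smul_inj (ρ : G →* Module.End k V) (g : G) {c d : k} (h : c • ρ g = d • ρ g) : c = d := by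
  have := rho_ne_zero ρ g
  by_contra hcd
  have h1 : (c - d) • ρ g = 0 := by rw [sub_smul, h, sub_self]
  rcases smul_eq_zero.mp h1 with h2 | h2
  · exact hcd (sub_eq_zero.mp h2)
  · exact this h2

/-- the scalar elements -/
def scalars (ρ : G →* Module.End k V) : Subgroup G where
  carrier := {g | ∃ c : k, ρ g = c • 1}
  one_mem' := ⟨1, by rw [map_one, one_smul]⟩
  mul_mem' := by
    rintro a b ⟨c, hc⟩ ⟨d, hd⟩
    refine ⟨c * d, ?_⟩
    rw [map_mul, hc, hd, smul_mul_smul_comm, one_mul]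
  inv_mem' := by
    rintro a ⟨c, hc⟩
    have hc0 : c ≠ 0 := by
      rintro rfl
      rw [zero_smul] at hc
      exact rho_ne_zero ρ a hc
    refine ⟨c⁻¹, ?_⟩
    have h1 : ρ a * ρ a⁻¹ = 1 := by rw [← map_mul, mul_inv_cancel, map_one]
    rw [hc, smul_mul_assoc, one_mul] at h1
    rw [← h1, smul_smul, inv_mul_cancel₀ hc0, one_smul]

theorem mem_scalars {ρ : G →* Module.End k V} {g : G} :
    g ∈ scalars ρ ↔ ∃ c : k, ρ g = c • 1 := Iff.rfl

theorem scalars_comm {ρ : G →* Module.End k V} {g : G} (hg : g ∈ scalars ρ)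
    (X : Module.End k V) : ρ g * X = X * ρ g := by
  obtain ⟨c, hc⟩ := hg
  rw [hc, smul_mul_assoc, one_mul, mul_smul_comm, mul_one]

instance scalars_normal (ρ : G →* Module.End k V) : (scalars ρ).Normal where
  conj_mem := by
    intro n hn g
    obtain ⟨c, hc⟩ := id hn
    refine ⟨c, ?_⟩
    rw [map_mul, map_mul, ← scalars_comm hn, mul_assoc, ← map_mul, mul_inv_cancel, map_one,
      mul_one, hc]

/-- the elements commuting with `ρ B` -/
def cent (ρ : G →* Module.End k V) (B : Subgroup G) : Subgroup G where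
  carrier := {g | ∀ b ∈ B, ρ g * ρ b = ρ b * ρ g}
  one_mem' := by
    intro b _
    rw [map_one, one_mul, mul_one]
  mul_mem' := by
    intro x y hx hy b hb
    rw [map_mul, mul_assoc, hy b hb, ← mul_assoc, hx b hb, mul_assoc]
  inv_mem' := by
    intro x hx b hb
    have h1 : ρ x⁻¹ * ρ x = 1 := by rw [← map_mul, inv_mul_cancel, map_one]
    have h2 : ρ x * ρ x⁻¹ = 1 := by rw [← map_mul, mul_inv_cancel, map_one]
    calc ρ x⁻¹ * ρ b = ρ x⁻¹ * (ρ b * ρ x) * ρ x⁻¹ := by
          rw [mul_assoc (ρ x⁻¹), mul_assoc (ρ b), h2, mul_one]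
      _ = ρ x⁻¹ * (ρ x * ρ b) * ρ x⁻¹ := by rw [hx b hb]
      _ = ρ b * ρ x⁻¹ := by rw [← mul_assoc, h1, one_mul]

theorem cent_normal (ρ : G →* Module.End k V) (B : Subgroup G) (hB : B.Normal) :
    (cent ρ B).Normal where
  conj_mem := by
    intro x hx g b hb
    have hb' : g⁻¹ * b * g ∈ B := by simpa using hB.conj_mem b hb g⁻¹
    have h := hx _ hb'
    rw [← map_mul, ← map_mul] at h ⊢
    have h2 : ρ (g * (x * (g⁻¹ * b * g)) * g⁻¹) = ρ (g * ((g⁻¹ * b * g) * x) * g⁻¹) := by
      rw [map_mul, map_mul, h, ← map_mul, ← map_mul]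
    have e1 : g * (x * (g⁻¹ * b * g)) * g⁻¹ = g * x * g⁻¹ * b := by group
    have e2 : g * ((g⁻¹ * b * g) * x) * g⁻¹ = b * (g * x * g⁻¹) := by group
    rwa [e1, e2] at h2

/-- membership of a commutator in the scalars -/
theorem comm_mem_scalars_iff (ρ : G →* Module.End k V) (x y : G) :
    x * y * x⁻¹ * y⁻¹ ∈ scalars ρ ↔ ∃ c : k, ρ x * ρ y = c • (ρ y * ρ x) := by
  rw [mem_scalars]
  refine exists_congr fun c => ?_
  constructor
  · intro h
    have e : x * y = (x * y * x⁻¹ * y⁻¹) * (y * x) := by group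
    rw [← map_mul, e, map_mul, h, smul_mul_assoc, one_mul, map_mul]
  · intro h
    have e : x * y * x⁻¹ * y⁻¹ = (x * y) * (y * x)⁻¹ := by group
    rw [e, map_mul, map_mul, h, smul_mul_assoc, ← map_mul, ← map_mul, mul_inv_cancel, map_one]

end

end M2b

open M2b

/-- ST-2b, with ST-2a as a hypothesis -/
theorem scalar_case_of {k V G : Type} [Field k] [AddCommGroup V] [Module k V]
    [FiniteDimensional k V] [Nontrivial V] [Group G] [Group.IsSolvable G]
    (ρ : G →* Module.End k V)
    (hs : ∀ A : Subgroup G, A.Normal → (∀ a ∈ A, ∀ b ∈ A, Commute (ρ a) (ρ b)) →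
      ∀ a ∈ A, ∃ c : k, ρ a = c • 1)
    (h2a : ∀ (Z B : Subgroup G), (∀ g, g ∈ Z ↔ ∃ c : k, ρ g = c • 1) → B.Normal → Z ≤ B →
      (∀ a ∈ B, ∀ b ∈ B, a * b * a⁻¹ * b⁻¹ ∈ Z) →
      Z.relIndex B ≠ 0 ∧ Z.relIndex B ≤ finrank k V ^ 2) :
    ∃ H : Subgroup G, H.index ≠ 0 ∧
      H.index ≤ (finrank k V ^ 2).factorial * (finrank k V ^ 2) ∧
      ∀ h ∈ H, ∃ c : k, ρ h = c • 1 := by
  classical
  set Z := scalars ρ with hZdef
  have hZ : ∀ g, g ∈ Z ↔ ∃ c : k, ρ g = c • 1 := fun g => Iff.rfl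
  let good : Subgroup G → Prop := fun B => B.Normal ∧ Z ≤ B ∧
    ∀ a ∈ B, ∀ b ∈ B, a * b * a⁻¹ * b⁻¹ ∈ Z
  have hbd : ∀ B, good B → Z.relIndex B ≠ 0 ∧ Z.relIndex B ≤ finrank k V ^ 2 :=
    fun B hB => h2a Z B hZ hB.1 hB.2.1 hB.2.2
  have hgZ : good Z := by
    refine ⟨inferInstance, le_refl _, fun a ha b hb => ?_⟩
    exact Z.mul_mem (Z.mul_mem (Z.mul_mem ha hb) (Z.inv_mem ha)) (Z.inv_mem hb)
  -- a maximal good subgroup
  obtain ⟨B, hB, hmax⟩ : ∃ B, good B ∧ ∀ B', good B' → Z.relIndex B' ≤ Z.relIndex B := by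
    let S : Set ℕ := {m | ∃ B, good B ∧ Z.relIndex B = m}
    have hS : S.Nonempty := ⟨_, Z, hgZ, rfl⟩
    have hSb : BddAbove S := ⟨finrank k V ^ 2, by
      rintro m ⟨B, hB, rfl⟩
      exact (hbd B hB).2⟩
    obtain ⟨B, hB, hm⟩ := Nat.sSup_mem hS hSb
    refine ⟨B, hB, fun B' hB' => ?_⟩
    rw [hm]
    exact le_csSup hSb ⟨B', hB', rfl⟩
  obtain ⟨hBn, hZB, hBc⟩ := id hB
  have hmax' : ∀ B', good B' → B ≤ B' → B' ≤ B := by
    intro B' hB' hle
    have h1 := Subgroup.relIndex_mul_relIndex Z B B' hZB hle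
    have h2 := hmax B' hB'
    have h3 := (hbd B' hB').1
    have h4 := (hbd B hB).1
    rw [← h1] at h2 h3
    have h5 : B.relIndex B' ≠ 0 := fun h => h3 (by rw [h, mul_zero])
    have h6 : B.relIndex B' = 1 := by
      have : Z.relIndex B * B.relIndex B' ≤ Z.relIndex B * 1 := by rw [mul_one]; exact h2
      have := Nat.le_of_mul_le_mul_left this (Nat.pos_of_ne_zero h4)
      omega
    exact Subgroup.relIndex_eq_one.mp h6
  -- the centralizer is scalar
  set C := cent ρ B with hCdef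
  have hCn : C.Normal := cent_normal ρ B hBn
  have hCZ : C ≤ Z := by
    by_contra hCZ
    obtain ⟨D, hDn, hDC, hDZ, hDD⟩ := exists_last C Z hCn hCZ
    have hDB : D ≤ B := by
      have hgood : good (D ⊔ B) := by
        refine ⟨Subgroup.sup_normal D B, hZB.trans le_sup_right, ?_⟩
        intro x hx y hy
        obtain ⟨d, hd, b, hb, rfl⟩ := Subgroup.mem_sup_of_normal_right.mp hx
        obtain ⟨d', hd', b', hb', rfl⟩ := Subgroup.mem_sup_of_normal_right.mp hy
        rw [hZdef, comm_mem_scalars_iff]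
        have h1 : d * d' * d⁻¹ * d'⁻¹ ∈ Z := hDD (Subgroup.commutator_mem_commutator hd hd')
        have h2 := hBc b hb b' hb'
        rw [hZdef, comm_mem_scalars_iff] at h1 h2
        obtain ⟨c1, h1⟩ := h1
        obtain ⟨c2, h2⟩ := h2
        have h3 : ρ d' * ρ b = ρ b * ρ d' := hDC hd' b hb
        have h4 : ρ d * ρ b' = ρ b' * ρ d := hDC hd b' hb'
        refine ⟨c1 * c2, ?_⟩
        rw [map_mul, map_mul]
        calc ρ d * ρ b * (ρ d' * ρ b') = ρ d * (ρ b * ρ d') * ρ b' := by simp only [mul_assoc]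
          _ = ρ d * (ρ d' * ρ b) * ρ b' := by rw [h3]
          _ = (ρ d * ρ d') * (ρ b * ρ b') := by simp only [mul_assoc]
          _ = (c1 • (ρ d' * ρ d)) * (c2 • (ρ b' * ρ b)) := by rw [h1, h2]
          _ = (c1 * c2) • ((ρ d' * ρ d) * (ρ b' * ρ b)) := by rw [smul_mul_smul_comm]
          _ = (c1 * c2) • (ρ d' * (ρ d * ρ b') * ρ b) := by simp only [mul_assoc]
          _ = (c1 * c2) • (ρ d' * (ρ b' * ρ d) * ρ b) := by rw [h4]
          _ = (c1 * c2) • (ρ d' * ρ b' * (ρ d * ρ b)) := by simp only [mul_assoc]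
      exact le_sup_left.trans (hmax' _ hgood le_sup_right)
    refine hDZ fun a ha => hs D hDn (fun a ha b hb => ?_) a ha
    exact hDC ha b (hDB hb)
  -- the index of the centralizer
  let Q' := B.map (QuotientGroup.mk' Z)
  have hQ'n : Q'.Normal := hBn.map _ (QuotientGroup.mk'_surjective Z)
  have hQ'card : Nat.card Q' = Z.relIndex B := by
    have := Subgroup.relIndex_ker B (QuotientGroup.mk' Z)
    rw [QuotientGroup.ker_mk'] at this
    exact this.symm
  have hQ'fin : Finite Q' := Nat.finite_of_card_ne_zero (by rw [hQ'card]; exact (hbd B hB).1)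
  let φ : G →* Equiv.Perm Q' := (MulAut.toPerm Q').comp
    ((MulAut.conjNormal (H := Q')).comp (QuotientGroup.mk' Z))
  set G1 := φ.ker with hG1
  have hG1i : G1.index ≠ 0 ∧ G1.index ≤ (finrank k V ^ 2).factorial := by
    rw [hG1, Subgroup.index_ker]
    have hfin : Finite (Equiv.Perm Q') := inferInstance
    constructor
    · exact Nat.card_ne_zero.mpr ⟨⟨1⟩, inferInstance⟩
    · refine (Nat.card_le_card_of_injective (fun x : φ.range => (x : Equiv.Perm Q'))
        Subtype.val_injective).trans ?_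
      rw [Nat.card_perm, hQ'card]
      exact Nat.factorial_le (hbd B hB).2
  have hmem : ∀ g ∈ G1, ∀ b ∈ B, g * b * g⁻¹ * b⁻¹ ∈ Z := by
    intro g hg b hb
    have h1 : φ g = 1 := hg
    have h2 := DFunLike.congr_fun h1 (⟨QuotientGroup.mk' Z b, Subgroup.mem_map_of_mem _ hb⟩ : Q')
    have h3 : QuotientGroup.mk' Z (g * b * g⁻¹) = QuotientGroup.mk' Z b := by
      have := congrArg (fun x : Q' => (x : G ⧸ Z)) h2
      change ((MulAut.conjNormal (QuotientGroup.mk' Z g)
        (⟨QuotientGroup.mk' Z b, Subgroup.mem_map_of_mem _ hb⟩ : Q') : Q') : G ⧸ Z) =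
          QuotientGroup.mk' Z b at this
      rw [MulAut.conjNormal_apply] at this
      rw [map_mul, map_mul, map_inv]
      exact this
    have h4 : QuotientGroup.mk' Z (g * b * g⁻¹ * b⁻¹) = 1 := by
      rw [map_mul, h3, ← map_mul, mul_inv_cancel, map_one]
    rwa [← MonoidHom.mem_ker, QuotientGroup.ker_mk'] at h4
  have hmem' : ∀ g, (∀ b ∈ B, g * b * g⁻¹ * b⁻¹ ∈ Z) → g ∈ G1 := by
    intro g hg
    rw [hG1, MonoidHom.mem_ker]
    refine Equiv.ext fun x => ?_
    obtain ⟨x, b, hb, rfl⟩ := x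
    have h4 : QuotientGroup.mk' Z (g * b * g⁻¹ * b⁻¹) = 1 := by
      rw [← MonoidHom.mem_ker, QuotientGroup.ker_mk']
      exact hg b hb
    have h5 : QuotientGroup.mk' Z (g * b * g⁻¹) = QuotientGroup.mk' Z b := by
      have : g * b * g⁻¹ = (g * b * g⁻¹ * b⁻¹) * b := by group
      rw [this, map_mul, h4, one_mul]
    apply Subtype.ext
    change ((MulAut.conjNormal (QuotientGroup.mk' Z g)
      (⟨QuotientGroup.mk' Z b, Subgroup.mem_map_of_mem _ hb⟩ : Q') : Q') : G ⧸ Z) =
        QuotientGroup.mk' Z b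
    rw [MulAut.conjNormal_apply]
    rw [map_mul, map_mul, map_inv] at h5
    exact h5
  have hCG1 : C ≤ G1 := by
    intro g hg
    refine hmem' g fun b hb => ?_
    rw [hZdef, comm_mem_scalars_iff]
    exact ⟨1, by rw [one_smul]; exact hg b hb⟩
  -- the characters
  have hch : ∀ (h : G1) (b : B), ∃ c : kˣ, ρ ((h : G) * b * (h : G)⁻¹) = (c : k) • ρ b := by
    intro h b
    have h1 := hmem h h.2 b b.2
    obtain ⟨c, hc⟩ := h1
    have hc0 : c ≠ 0 := by
      rintro rfl
      rw [zero_smul] at hc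
      exact rho_ne_zero ρ _ hc
    refine ⟨Units.mk0 c hc0, ?_⟩
    have e : (h : G) * b * (h : G)⁻¹ = ((h : G) * b * (h : G)⁻¹ * (b : G)⁻¹) * b := by group
    rw [e, map_mul, hc, smul_mul_assoc, one_mul]
    rfl
  choose μ hμ using hch
  have huniq : ∀ (h : G1) (b : B) (c : kˣ), ρ ((h : G) * b * (h : G)⁻¹) = (c : k) • ρ b →
      c = μ h b := by
    intro h b c hc
    rw [hμ h b] at hc
    exact (Units.ext (smul_inj ρ b hc)).symm
  let Φ : G1 →* (B →* kˣ) := MonoidHom.mk' (fun h => MonoidHom.mk' (μ h) (by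
      intro a b
      refine (huniq h (a * b) (μ h a * μ h b) ?_).symm
      have e : (h : G) * ((a * b : B) : G) * (h : G)⁻¹ =
          ((h : G) * a * (h : G)⁻¹) * ((h : G) * b * (h : G)⁻¹) := by
        rw [Subgroup.coe_mul]
        group
      rw [e, map_mul, hμ, hμ, smul_mul_smul_comm, ← map_mul, Subgroup.coe_mul, Units.val_mul]))
    (by
      intro g h
      ext b
      change ((μ (g * h) b : kˣ) : k) = ((μ g b * μ h b : kˣ) : k)
      congr 1
      refine (huniq (g * h) b (μ g b * μ h b) ?_).symm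
      have e : ((g * h : G1) : G) * (b : G) * ((g * h : G1) : G)⁻¹ =
          (g : G) * ((h : G) * b * (h : G)⁻¹) * (g : G)⁻¹ := by
        rw [Subgroup.coe_mul]
        group
      rw [e, map_mul, map_mul, hμ h b, mul_smul_comm, smul_mul_assoc, ← map_mul, ← map_mul,
        hμ g b, smul_smul, mul_comm, Units.val_mul])
  have hker : Φ.ker = C.subgroupOf G1 := by
    ext h
    rw [MonoidHom.mem_ker, Subgroup.mem_subgroupOf]
    constructor
    · intro h1 b hb
      have h2 : μ h ⟨b, hb⟩ = 1 := DFunLike.congr_fun h1 ⟨b, hb⟩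
      have h3 := hμ h ⟨b, hb⟩
      rw [h2, Units.val_one, one_smul] at h3
      have e : (h : G) * b = ((h : G) * b * (h : G)⁻¹) * h := by group
      rw [← map_mul, e, map_mul]
      exact congrArg (· * ρ h) h3
    · intro h1
      ext b
      change ((μ h b : kˣ) : k) = ((1 : kˣ) : k)
      congr 1
      refine (huniq h b 1 ?_).symm
      have h2 : ρ (h : G) * ρ (b : G) = ρ b * ρ h := h1 b b.2
      rw [Units.val_one, one_smul, map_mul, map_mul, h2, mul_assoc, ← map_mul, mul_inv_cancel,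
        map_one, mul_one]
  have hrange : Nat.card Φ.range ≠ 0 ∧ Nat.card Φ.range ≤ finrank k V ^ 2 := by
    let Q := B ⧸ (Z.subgroupOf B)
    have hQcard : Nat.card Q = Z.relIndex B := rfl
    have hQfin : Finite Q := Nat.finite_of_card_ne_zero (by rw [hQcard]; exact (hbd B hB).1)
    obtain ⟨hf1, hf2⟩ := card_monoidHom_le Q k
    have hk : ∀ f ∈ Φ.range, Z.subgroupOf B ≤ f.ker := by
      rintro f ⟨h, rfl⟩ z hz
      rw [MonoidHom.mem_ker]
      refine (huniq h z 1 ?_).symm
      rw [Units.val_one, one_smul, map_mul, map_mul,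
        ← scalars_comm (Subgroup.mem_subgroupOf.mp hz), mul_assoc, ← map_mul, mul_inv_cancel,
        map_one, mul_one]
    let Ψ : Φ.range → (Q →* k) := fun f =>
      (Units.coeHom k).comp (QuotientGroup.lift (Z.subgroupOf B) f.1 (hk f.1 f.2))
    have hΨ : Function.Injective Ψ := by
      intro f g hfg
      apply Subtype.ext
      ext b
      have := DFunLike.congr_fun hfg (QuotientGroup.mk b : Q)
      simpa [Ψ] using this
    have hfin : Finite Φ.range := Finite.of_injective Ψ hΨ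
    refine ⟨Nat.card_ne_zero.mpr ⟨⟨1⟩, hfin⟩, ?_⟩
    refine (Nat.card_le_card_of_injective Ψ hΨ).trans (hf2.trans ?_)
    rw [hQcard]
    exact (hbd B hB).2
  have hrel : C.relIndex G1 = Nat.card Φ.range := by
    rw [← Subgroup.index_ker, hker]
    rfl
  refine ⟨C, ?_, ?_, fun h hh => hCZ hh⟩
  · rw [← Subgroup.relIndex_mul_index hCG1, hrel]
    exact mul_ne_zero hrange.1 hG1i.1
  · rw [← Subgroup.relIndex_mul_index hCG1, hrel, mul_comm]
    exact Nat.mul_le_mul hG1i.2 hrange.2

/-- ST-2b: if all normal subgroups with commutative image are scalar, then `G` is scalar up to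
bounded index -/
theorem scalar_case {k V G : Type} [Field k] [AddCommGroup V] [Module k V]
    [FiniteDimensional k V] [Nontrivial V] [Group G] [Group.IsSolvable G]
    (ρ : G →* Module.End k V)
    (hs : ∀ A : Subgroup G, A.Normal → (∀ a ∈ A, ∀ b ∈ A, Commute (ρ a) (ρ b)) →
      ∀ a ∈ A, ∃ c : k, ρ a = c • 1) :
    ∃ H : Subgroup G, H.index ≠ 0 ∧
      H.index ≤ (finrank k V ^ 2).factorial * (finrank k V ^ 2) ∧
      ∀ h ∈ H, ∃ c : k, ρ h = c • 1 :=
  scalar_case_of ρ hs fun Z B hZ hB hZB hc => relIndex_le ρ hs Z B hZ hB hZB hc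

end Pool.Agent.ST
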